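import Pool.Agent.MWI.StmtsE

/-!
# Squad MWI, row PAR: two crossing pairs
-/

namespace Pool.Agent.MWI.H43

open Pool.Agent.MWI Pool.Agent.MVD

theorem first_uniq {a : ℕ} {A A' R R' : List ℕ} (h : a ∉ A) (h' : a ∉ A')
    (e : A ++ a :: R = A' ++ a :: R') : A = A' ∧ R = R' := by
  induction A generalizing A' with
  | nil =>
    rcases A' with _ | ⟨c, A'⟩
    · exact ⟨rfl, (List.cons.inj e).2⟩
    · have h1 := (List.cons.inj e).1
      rw [List.mem_cons, not_or] at h'
      exact absurd h1 h'.1
  | cons b A ih =>
    rw [List.mem_cons, not_or] at h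
    rcases A' with _ | ⟨c, A'⟩
    · have h1 := (List.cons.inj e).1
      exact absurd h1.symm h.1
    · rw [List.mem_cons, not_or] at h'
      have h1 := (List.cons.inj e).1
      obtain ⟨e1, e2⟩ := ih h.2 h'.2 (List.cons.inj e).2
      exact ⟨by rw [h1, e1], e2⟩

theorem nmem_of {M A G B : List ℕ} {a : ℕ} (hc : M.count a = 2) (h : M = A ++ a :: (G ++ a :: B)) :
    a ∉ A ∧ a ∉ G ∧ a ∉ B := by
  rw [h, List.count_append, List.count_cons_self, List.count_append, List.count_cons_self] at hc
  refine ⟨?_, ?_, ?_⟩ <;> rw [← List.count_eq_zero] <;> omega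

theorem btw_iff {M A G B : List ℕ} {a z : ℕ} (hc : M.count a = 2)
    (h : M = A ++ a :: (G ++ a :: B)) : Btw a z M ↔ z ∈ G := by
  constructor
  · rintro ⟨A', G', B', h', hz⟩
    obtain ⟨n1, n2, _⟩ := nmem_of hc h
    obtain ⟨m1, m2, _⟩ := nmem_of hc h'
    obtain ⟨_, e2⟩ := first_uniq n1 m1 (h.symm.trans h')
    obtain ⟨e3, _⟩ := first_uniq n2 m2 e2
    rw [e3]
    exact hz
  · intro hz
    exact ⟨A, G, B, h, hz⟩

theorem one_of {l : List ℕ} {b : ℕ} (h : 1 ≤ l.count b) : ∃ P Q, l = P ++ b :: Q :=
  List.append_of_mem (List.count_pos_iff.1 h)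

theorem two_of {l : List ℕ} {b : ℕ} (h : 2 ≤ l.count b) :
    ∃ P Q R, l = P ++ b :: (Q ++ b :: R) := by
  obtain ⟨P, Q, h1, h2⟩ := List.eq_append_cons_of_mem (List.count_pos_iff.1 (by omega : 0 < l.count b))
  rw [h1, List.count_append, List.count_cons_self, List.count_eq_zero.2 h2] at h
  obtain ⟨Q1, R, h3⟩ := one_of (l := Q) (b := b) (by omega)
  exact ⟨P, Q1, R, by rw [h1, h3]⟩

theorem no_two {l m r : List ℕ} {z : ℕ} (h : (l ++ (m ++ r)).count z = 1) (h1 : z ∈ l)
    (h2 : z ∈ m) : False := by
  rw [List.count_append, List.count_append] at h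
  have k1 := List.count_pos_iff.2 h1
  have k2 := List.count_pos_iff.2 h2
  omega

/-- **PAR** -/
theorem par : ParStmt := by
  intro M a b z z' z'' hab ha hb hz hz' hz'' baz bbz baz' bbz' baz'' bbz''
  obtain ⟨A, G, B, hM, hzG⟩ := baz
  have iff_a : ∀ y, Btw a y M ↔ y ∈ G := fun y => btw_iff ha hM
  have hz'G : z' ∈ G := (iff_a z').1 baz'
  have hz''G : z'' ∉ G := fun h => baz'' ((iff_a z'').2 h)
  have hba : ¬ a = b := hab
  have hcb : A.count b + (G.count b + B.count b) = 2 := by
    rw [hM, List.count_append, List.count_cons_of_ne hba, List.count_append,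
      List.count_cons_of_ne hba] at hb
    exact hb
  have hza : z ≠ a := fun h => by rw [h, ha] at hz; omega
  have hzb : z ≠ b := fun h => by rw [h, hb] at hz; omega
  have hz'a : z' ≠ a := fun h => by rw [h, ha] at hz'; omega
  have hz'b : z' ≠ b := fun h => by rw [h, hb] at hz'; omega
  have hz''a : z'' ≠ a := fun h => by rw [h, ha] at hz''; omega
  have hz''b : z'' ≠ b := fun h => by rw [h, hb] at hz''; omega
  have hnA : z ∉ A := by
    intro h
    have k1 := List.count_pos_iff.2 h
    have k2 := List.count_pos_iff.2 hzG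
    rw [hM, List.count_append, List.count_cons_of_ne (fun h => hza h.symm), List.count_append] at hz
    omega
  have hnB : z ∉ B := by
    intro h
    have k1 := List.count_pos_iff.2 h
    have k2 := List.count_pos_iff.2 hzG
    rw [hM, List.count_append, List.count_cons_of_ne (fun h => hza h.symm), List.count_append,
      List.count_cons_of_ne (fun h => hza h.symm)] at hz
    omega
  by_cases hG2 : 2 ≤ G.count b
  · obtain ⟨g0, g1, g2, hG⟩ := two_of hG2
    exfalso
    have hM' : M = (A ++ a :: g0) ++ b :: (g1 ++ b :: (g2 ++ a :: B)) := by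
      rw [hM, hG]; simp
    have h1 := (btw_iff hb hM').1 bbz''
    apply hz''G
    rw [hG]
    simp [h1]
  · by_cases hG1 : G.count b = 1
    · obtain ⟨g1, g2, hG⟩ := one_of (l := G) (b := b) (by omega)
      have hG' : ∀ y, y ≠ b → (y ∈ G ↔ y ∈ g1 ∨ y ∈ g2) := by
        intro y hy
        rw [hG]
        simp [hy]
      by_cases hA : A.count b = 1
      · obtain ⟨x0, x1, hA'⟩ := one_of (l := A) (b := b) (by omega)
        right
        have hM' : M = x0 ++ b :: ((x1 ++ a :: g1) ++ b :: (g2 ++ a :: B)) := by
          rw [hM, hG, hA']; simp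
        have k := fun y => btw_iff (z := y) hb hM'
        have k1 := (k z).1 bbz
        have k2 := (k z'').1 bbz''
        have k3 : z' ∉ x1 ++ a :: g1 := fun h => bbz' ((k z').2 h)
        simp only [List.mem_append, List.mem_cons, not_or] at k1 k2 k3
        refine ⟨x0, x1, g1, g2, B, ?_, ?_, ?_, ?_⟩
        · rw [hM']; simp
        · rcases k2 with h | h | h
          · exact h
          · exact absurd h hz''a
          · exact absurd ((hG' z'' hz''b).2 (Or.inl h)) hz''G
        · rcases k1 with h | h | h
          · exact absurd (by rw [hA']; simp [h]) hnA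
          · exact absurd h hza
          · exact h
        · rcases (hG' z' hz'b).1 hz'G with h | h
          · exact absurd h k3.2.2
          · exact h
      · have hB : B.count b = 1 := by
          by_contra hB
          omega
        obtain ⟨x3, x4, hB'⟩ := one_of (l := B) (b := b) (by omega)
        left
        have hM' : M = (A ++ a :: g1) ++ b :: ((g2 ++ a :: x3) ++ b :: x4) := by
          rw [hM, hG, hB']; simp
        have k := fun y => btw_iff (z := y) hb hM'
        have k1 := (k z).1 bbz
        have k2 := (k z'').1 bbz''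
        have k3 : z' ∉ g2 ++ a :: x3 := fun h => bbz' ((k z').2 h)
        simp only [List.mem_append, List.mem_cons, not_or] at k1 k2 k3
        refine ⟨A, g1, g2, x3, x4, ?_, ?_, ?_, ?_⟩
        · rw [hM']; simp
        · rcases (hG' z' hz'b).1 hz'G with h | h
          · exact h
          · exact absurd h k3.1
        · rcases k1 with h | h | h
          · exact h
          · exact absurd h hza
          · exact absurd (by rw [hB']; simp [h]) hnB
        · rcases k2 with h | h | h
          · exact absurd ((hG' z'' hz''b).2 (Or.inr h)) hz''G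
          · exact absurd h hz''a
          · exact h
    · exfalso
      have hG0 : G.count b = 0 := by omega
      by_cases hA2 : 2 ≤ A.count b
      · obtain ⟨g0, g1, g2, hA⟩ := two_of hA2
        have hM' : M = g0 ++ b :: (g1 ++ b :: (g2 ++ a :: (G ++ a :: B))) := by
          rw [hM, hA]; simp
        have h1 := (btw_iff hb hM').1 bbz
        exact hnA (by rw [hA]; simp [h1])
      · by_cases hB2 : 2 ≤ B.count b
        · obtain ⟨g0, g1, g2, hB⟩ := two_of hB2
          have hM' : M = (A ++ a :: (G ++ a :: g0)) ++ b :: (g1 ++ b :: g2) := by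
            rw [hM, hB]; simp
          have h1 := (btw_iff hb hM').1 bbz
          exact hnB (by rw [hB]; simp [h1])
        · obtain ⟨g0, g1, hA⟩ := one_of (l := A) (b := b) (by omega)
          obtain ⟨h0, h1, hB⟩ := one_of (l := B) (b := b) (by omega)
          have hM' : M = g0 ++ b :: ((g1 ++ a :: (G ++ a :: h0)) ++ b :: h1) := by
            rw [hM, hA, hB]; simp
          exact bbz' ((btw_iff hb hM').2 (by simp [hz'G]))

end Pool.Agent.MWI.H43
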