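import Pool.Agent.MWI.StmtsT

/-!
# Squad MWI, row WRT: letters `y` on the right
-/

namespace Pool.Agent.MWI.H43

open Pool.Agent.Helper14_MV Pool.Agent.Helper2_MV Pool.Agent.MWF
open Pool.Agent.MWI

theorem rep_it (a : ℕ) : (List.replicate a 0).filter it = [] := by
  rw [List.filter_eq_nil_iff]
  intro c hc
  rw [List.eq_of_mem_replicate hc]
  decide

theorem it_two (i : ℕ) : it (3 * i + 2) = false := by
  unfold it
  rw [decide_eq_false_iff_not]
  omega

theorem it_one (i : ℕ) : it (3 * i + 1) = true := by
  unfold it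
  rw [decide_eq_true_iff]
  omega

theorem pA_it (a b : ℕ → ℕ) (P : List ℕ) : (pA a b P).filter it = ts P := by
  induction P with
  | nil => rfl
  | cons i P ih =>
    unfold pA ts at ih ⊢
    rw [List.flatMap_cons, List.filter_append, ih, List.filter_append, rep_it, List.nil_append,
      List.filter_cons, it_two]
    simp [rep_it, it_one]

theorem pC_it (a b : ℕ → ℕ) (Q : List ℕ) : (pC a b Q).filter it = ts Q := by
  induction Q with
  | nil => rfl
  | cons i Q ih =>
    unfold pC ts at ih ⊢
    rw [List.flatMap_cons, List.filter_append, ih, List.filter_cons, it_one, List.filter_append,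
      rep_it, List.nil_append, List.filter_cons, it_two]
    simp [rep_it]

theorem pA_last (a b : ℕ → ℕ) (P l : List ℕ) (c : ℕ) (h : pA a b P = l ++ [c]) : c % 3 = 1 := by
  rcases List.eq_nil_or_concat P with h0 | ⟨P', i, h0⟩
  · rw [h0] at h
    have := congrArg List.length h
    simp [pA] at this
  · subst h0
    unfold pA at h
    rw [List.concat_eq_append, List.flatMap_append, List.flatMap_singleton] at h
    have e : (P'.flatMap (fun i => List.replicate (a i) 0 ++ (3 * i + 2) ::
        (List.replicate (b i) 0 ++ [3 * i + 1]))) ++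
        (List.replicate (a i) 0 ++ (3 * i + 2) :: (List.replicate (b i) 0 ++ [3 * i + 1])) =
        ((P'.flatMap (fun i => List.replicate (a i) 0 ++ (3 * i + 2) ::
        (List.replicate (b i) 0 ++ [3 * i + 1]))) ++
        (List.replicate (a i) 0 ++ (3 * i + 2) :: List.replicate (b i) 0)) ++ [3 * i + 1] := by
      simp
    rw [e] at h
    have h1 := List.append_inj_right' h rfl
    have h2 := (List.cons.inj h1).1
    omega

theorem zero_mem_pC {a b : ℕ → ℕ} {Q : List ℕ} {i : ℕ} (hi : i ∈ Q) (h : a i + b i ≠ 0) :
    0 ∈ pC a b Q := by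
  unfold pC
  rw [List.mem_flatMap]
  refine ⟨i, hi, ?_⟩
  rw [List.mem_cons, List.mem_append, List.mem_cons, List.mem_replicate, List.mem_replicate]
  by_cases ha : a i = 0
  · exact Or.inr (Or.inr (Or.inr ⟨by omega, rfl⟩))
  · exact Or.inr (Or.inl ⟨ha, rfl⟩)

theorem count_zz (h : List ℕ) : (zz h).count 0 = 0 := by
  rw [List.count_eq_zero]
  intro hm
  unfold zz at hm
  obtain ⟨i, _, hi⟩ := List.mem_map.1 hm
  omega

theorem zz_mod {h : List ℕ} {c : ℕ} (hm : c ∈ zz h) : c % 3 ≠ 1 := by
  unfold zz at hm
  obtain ⟨i, _, hi⟩ := List.mem_map.1 hm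
  omega

/-- the substitution `0 ↦ [0]`, `1 ↦ u`, `4 ↦ v` -/
def sb (u v : List ℕ) (c : ℕ) : List ℕ := if c = 1 then u else if c = 4 then v else [c]

theorem rep_sb (u v : List ℕ) (m : ℕ) :
    (List.replicate m 0).flatMap (sb u v) = List.replicate m 0 := by
  induction m with
  | zero => rfl
  | succ m ih => rw [List.replicate_succ, List.flatMap_cons, ih]; rfl

/-- **WRT** -/
theorem wrt : WrtStmt := by
  intro n β hT hK a b P Q h m _ ⟨i, hi, hab⟩
  obtain ⟨C1, C2, hC⟩ := List.append_of_mem (zero_mem_pC hi hab)
  -- the general conclusion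
  have key : ∀ r : ℕ, RR β ([0] ++ (zz h ++ (0 :: (C1 ++ [0]))))
      (List.replicate (r + 1) 0 ++ (zz h ++ (List.replicate (n + 1) 0 ++
        (C1 ++ List.replicate (n + 1) 0)))) →
      ∃ w, RR β (bb a b P (0 :: (zz h ++ [0])) Q) w ∧ Bd P Q w := by
    intro r hr
    refine ⟨pA a b P ++ ((List.replicate (r + 1) 0 ++ (zz h ++ List.replicate (n + 1) 0)) ++
      (C1 ++ (List.replicate (n + 1) 0 ++ C2))), ?_, ?_⟩
    · have h1 := ctx (pA a b P) C2 hr
      have e1 : pA a b P ++ ([0] ++ (zz h ++ (0 :: (C1 ++ [0])))) ++ C2 =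
          bb a b P (0 :: (zz h ++ [0])) Q := by
        unfold bb
        rw [hC]
        simp
      have e2 : pA a b P ++ (List.replicate (r + 1) 0 ++ (zz h ++ (List.replicate (n + 1) 0 ++
          (C1 ++ List.replicate (n + 1) 0)))) ++ C2 = pA a b P ++ ((List.replicate (r + 1) 0 ++
          (zz h ++ List.replicate (n + 1) 0)) ++ (C1 ++ (List.replicate (n + 1) 0 ++ C2))) := by
        simp only [List.append_assoc]
      rw [e1, e2] at h1
      exact h1
    · refine ⟨pA a b P, List.replicate (r + 1) 0 ++ (zz h ++ List.replicate (n + 1) 0),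
        C1 ++ (List.replicate (n + 1) 0 ++ C2), rfl, pA_it a b P, ?_, ?_,
        fun l c hc => pA_last a b P l c hc, ?_, ?_⟩
      · rw [← pC_it a b Q, hC]
        rw [List.filter_append, List.filter_append, List.filter_append, rep_it]
        rfl
      · intro c hc
        rw [List.mem_append, List.mem_append] at hc
        rcases hc with hc | hc | hc
        · rw [List.eq_of_mem_replicate hc]; decide
        · exact zz_mod hc
        · rw [List.eq_of_mem_replicate hc]; decide
      · intro c l hcl
        rcases Q with _ | ⟨q, Q'⟩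
        · exact absurd hi List.not_mem_nil
        have hh : ∃ R, pC a b (q :: Q') = (3 * q + 1) :: R := ⟨_, rfl⟩
        obtain ⟨R, hR⟩ := hh
        rw [hR] at hC
        rcases C1 with _ | ⟨d, C1'⟩
        · have h3 := (List.cons.inj hC).1
          omega
        · have h3 : 3 * q + 1 = d := (List.cons.inj hC).1
          have h4 : d = c := (List.cons.inj hcl).1
          omega
      · intro h' he
        have h1 := congrArg (List.count 0) he
        rw [List.count_append, List.count_append, List.count_cons_self, List.count_append,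
          count_zz, count_zz, List.count_replicate_self, List.count_replicate_self,
          List.count_singleton_self] at h1
        have := hT.pos
        omega
  rcases hK with hK | hK
  · have h1 := RR.sub (sb (zz h) C1) hK
    have e1 : [0, 1, 0, 4, 0].flatMap (sb (zz h) C1) = [0] ++ (zz h ++ (0 :: (C1 ++ [0]))) := by
      simp [sb]
    have e2 : ([0, 1] ++ (List.replicate (n + 1) 0 ++ 4 :: List.replicate (n + 1) 0)).flatMap
        (sb (zz h) C1) = List.replicate (0 + 1) 0 ++ (zz h ++ (List.replicate (n + 1) 0 ++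
        (C1 ++ List.replicate (n + 1) 0))) := by
      rw [List.flatMap_append, List.flatMap_append, List.flatMap_cons, List.flatMap_cons,
        List.flatMap_cons, rep_sb, List.flatMap_nil]
      simp [sb]
    rw [e1, e2] at h1
    exact key 0 h1
  · have h1 := RR.sub (sb (zz h) C1) hK
    have e1 : [0, 1, 0, 4, 0].flatMap (sb (zz h) C1) = [0] ++ (zz h ++ (0 :: (C1 ++ [0]))) := by
      simp [sb]
    have e2 : (List.replicate (n + 1) 0 ++ 1 :: (List.replicate (n + 1) 0 ++ 4 ::
        List.replicate (n + 1) 0)).flatMap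
        (sb (zz h) C1) = List.replicate (n + 1) 0 ++ (zz h ++ (List.replicate (n + 1) 0 ++
        (C1 ++ List.replicate (n + 1) 0))) := by
      rw [List.flatMap_append, List.flatMap_cons, List.flatMap_append, List.flatMap_cons, rep_sb]
      simp [sb]
    rw [e1, e2] at h1
    exact key n h1

end Pool.Agent.MWI.H43
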